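import Pool.Agent.Helper60.AD.Defs
import Pool.Agent.Helper88.AD.A3

/-!
# AO-H11: the phase minus its linear part, constants uniform in the base
-/

open MeasureTheory Real Set Filter Topology

set_option autoImplicit false

namespace Pool.Agent.Helper85.AO

open Pool.Agent.Helper22.AE
open Pool.Agent.Helper92.GC (dt sqa)
open Pool.Agent.Helper60.AD Pool.Agent.Helper88.AD

theorem lam_le_u {h : ℝ → ℝ} (h0 : ContDiff ℝ 2 h) (hp : Function.Periodic h (2 * π)) {C : ℝ} (hC : 0 < C)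
    (hb : ∀ x, |rho h x| ≤ C) (B : Finset (ℤ × ℤ)) (N j : ℕ) (hN : 1 ≤ N) (α : ℝ) (k : ℤ × ℤ) (hk : k ∈ arcSet B N j) :
      |lam h (2 * π * (j / N)) α k| ≤ C * (2 * π) ^ 2 * (nk k / N * (1 / N + |sin α|)) := by
  have hN0 : (0 : ℝ) < N := by exact_mod_cast hN
  have hnk : 0 ≤ nk k := norm_nonneg _
  have hpi : 1 ≤ 2 * π := by linarith [Real.pi_gt_three]
  unfold arcSet at hk
  rw [Finset.mem_filter] at hk
  have hx0 : 0 ≤ xk k := Int.fract_nonneg _
  have f1 := Nat.floor_le (a := (N : ℝ) * xk k) (by positivity)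
  have f2 := Nat.lt_floor_add_one ((N : ℝ) * xk k)
  rw [hk.2] at f1 f2
  have hd : |2 * π * xk k - 2 * π * (j / N)| ≤ 2 * π / N := by
    have e : 2 * π * xk k - 2 * π * (j / N) = (2 * π / N) * (N * xk k - j) := by
      field_simp
    rw [e, abs_mul, abs_of_nonneg (by positivity : (0 : ℝ) ≤ 2 * π / N)]
    have : |(N : ℝ) * xk k - j| ≤ 1 := by
      rw [abs_le]
      constructor <;> linarith
    calc 2 * π / N * |(N : ℝ) * xk k - j| ≤ 2 * π / N * 1 := mul_le_mul_of_nonneg_left this (by positivity)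
      _ = _ := mul_one _
  set t : ℝ := 2 * π * xk k with ht
  set θ : ℝ := 2 * π * (j / N) with hθ
  have hl : lam h θ α k = dt k (bx h (t + α)) - dt k (bx h (θ + α)) := by
    unfold lam
    rw [phase88 hp]
  have hmv := (convex_uIcc (θ + α) (t + α)).norm_image_sub_le_of_norm_hasDerivWithin_le
    (f := fun y => dt k (bx h y)) (f' := fun x => rho h x * (nk k * sin (t - x)))
    (C := C * (nk k * (2 * π / N + |sin α|))) (fun x _ => (dtbx_hasDerivAt88 h0 k x).hasDerivWithinAt)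
    (fun x hx => by
      rw [norm_mul, norm_mul, Real.norm_eq_abs, Real.norm_eq_abs, Real.norm_eq_abs, abs_of_nonneg hnk]
      refine mul_le_mul (hb x) ?_ (by positivity) hC.le
      refine mul_le_mul_of_nonneg_left ((sin_le88 t α x).trans ?_) hnk
      have h1 : |t + α - x| ≤ |t + α - (θ + α)| := by
        have h2 := abs_sub_right_of_mem_uIcc hx
        exact h2
      have h3 : t + α - (θ + α) = t - θ := by ring
      rw [h3] at h1
      linarith) left_mem_uIcc right_mem_uIcc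
  rw [hl]
  rw [Real.norm_eq_abs, Real.norm_eq_abs, show t + α - (θ + α) = t - θ by ring] at hmv
  refine hmv.trans ?_
  have h5 : C * (nk k * (2 * π / N + |sin α|)) * |t - θ| ≤ C * (nk k * (2 * π / N + |sin α|)) * (2 * π / N) :=
    mul_le_mul_of_nonneg_left hd (by positivity)
  refine h5.trans ?_
  have h6 : 2 * π / N + |sin α| ≤ 2 * π * (1 / N + |sin α|) := by
    have : |sin α| ≤ 2 * π * |sin α| := le_mul_of_one_le_left (abs_nonneg _) hpi
    calc 2 * π / N + |sin α| ≤ 2 * π / N + 2 * π * |sin α| := by linarith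
      _ = _ := by ring
  calc C * (nk k * (2 * π / N + |sin α|)) * (2 * π / N)
      ≤ C * (nk k * (2 * π * (1 / N + |sin α|))) * (2 * π / N) := by gcongr
    _ = _ := by ring

theorem lam_blk_u (L : ℕ) (V : ℝ) :
    ∃ C : ℝ, 0 < C ∧ ∀ H₀ : ℝ → ℝ, ContDiff ℝ 2 H₀ → Function.Periodic H₀ (2 * π) → (∀ θ, |rho H₀ θ| ≤ V) →
      ∀ (i : Ix L) (n M s j : ℕ), 1 ≤ M → ∀ α : ℝ, ∀ k ∈ arcSet (blk n) (8 * M ^ s) j,
      |lam (bas H₀ i) (2 * π * (j / ((8 * M ^ s : ℕ) : ℝ))) α k| ≤ C * (2 ^ n / (M : ℝ) ^ s * (1 / (M : ℝ) ^ s + |sin α|)) := by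
  obtain ⟨C0, hC0, hz⟩ := lam_blk L (H₀ := fun _ => 0) contDiff_const (fun _ => rfl)
  obtain ⟨C1, hC1⟩ : ∃ C1 : ℝ, C1 = (|V| + 1) * (2 * π) ^ 2 := ⟨_, rfl⟩
  have hC1p : 0 < C1 := by rw [hC1]; positivity
  refine ⟨C0 + C1, by positivity, fun H₀ h0 hp hV i n M s j hM α k hk => ?_⟩
  have hM0 : (0 : ℝ) < M := by exact_mod_cast hM
  have hMs : (0 : ℝ) < (M : ℝ) ^ s := by positivity
  have hX : 0 ≤ 2 ^ n / (M : ℝ) ^ s * (1 / (M : ℝ) ^ s + |sin α|) := by positivity
  have hsome : |lam (bas (fun _ => 0) i) (2 * π * (j / ((8 * M ^ s : ℕ) : ℝ))) α k| ≤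
      (C0 + C1) * (2 ^ n / (M : ℝ) ^ s * (1 / (M : ℝ) ^ s + |sin α|)) :=
    (hz i n M s j hM α k hk).trans (mul_le_mul_of_nonneg_right (by linarith) hX)
  match i with
  | some (Sum.inl l) => exact hsome
  | some (Sum.inr l) => exact hsome
  | none =>
    have hb : ∀ x, |rho H₀ x| ≤ |V| + 1 := fun x => (hV x).trans ((le_abs_self V).trans (by linarith))
    have h9 := lam_le_u h0 hp (by positivity : 0 < |V| + 1) hb (blk n) (8 * M ^ s) j (by
      have : 0 < M ^ s := pow_pos hM s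
      omega) α k hk
    rw [← hC1] at h9
    refine h9.trans ?_
    have hk' : k ∈ blk n := by
      unfold arcSet at hk
      exact (Finset.mem_filter.1 hk).1
    have hn : nk k < 2 ^ (n + 1) := by
      unfold blk at hk'
      exact (Finset.mem_filter.1 hk').2.2
    have h2 : nk k / ((8 * M ^ s : ℕ) : ℝ) ≤ 2 ^ n / (M : ℝ) ^ s := by
      push_cast
      rw [div_le_div_iff₀ (by positivity) hMs]
      have : nk k ≤ 2 ^ n * 8 := by
        rw [pow_succ] at hn
        have : (0 : ℝ) < 2 ^ n := by positivity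
        linarith
      calc nk k * (M : ℝ) ^ s ≤ 2 ^ n * 8 * (M : ℝ) ^ s := mul_le_mul_of_nonneg_right this hMs.le
        _ = _ := by ring
    have h3 : 1 / ((8 * M ^ s : ℕ) : ℝ) ≤ 1 / (M : ℝ) ^ s := by
      refine one_div_le_one_div_of_le hMs ?_
      push_cast
      linarith
    have hnk : 0 ≤ nk k := norm_nonneg _
    exact mul_le_mul (by linarith) (mul_le_mul h2 (by linarith) (by positivity) (by positivity)) (by positivity)
      (by positivity)

end Pool.Agent.Helper85.AO
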