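import Pool.Agent.Helper60.AD.Defs
import Pool.Agent.Helper22.AE.C4

/-!
# AO-H11: the Sobolev inequality in the radius for the mean over the centres, uniform in the base
-/

open MeasureTheory Real Set Filter Topology

set_option autoImplicit false

namespace Pool.Agent.Helper85.AO

open Pool.Agent.Helper22.AE
open Pool.Agent.Helper92.GC (dt sqa)
open Pool.Agent.Helper60.AD

private lemma a4_deriv {L : ℕ} {H₀ : ℝ → ℝ} (h0 : ContDiff ℝ 2 H₀) (w : (Fin L → ℝ) × (Fin L → ℝ)) (u : ℝ) :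
    deriv (Hw H₀ w) u = ∑ i : Ix L, cf w i * deriv (bas H₀ i) u := by
  rw [Hw_bas]
  have h : ∀ i ∈ (Finset.univ : Finset (Ix L)), HasDerivAt (fun θ => cf w i * bas H₀ i θ) (cf w i * deriv (bas H₀ i) u) u := by
    intro i _
    exact (((bas_smooth h0 i).differentiable (by norm_num)) u).hasDerivAt.const_mul _
  exact (HasDerivAt.fun_sum h).deriv

private lemma a4_lam {L : ℕ} {H₀ : ℝ → ℝ} (h0 : ContDiff ℝ 2 H₀) (w : (Fin L → ℝ) × (Fin L → ℝ)) (θ α : ℝ) (k : ℤ × ℤ) :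
    lam (Hw H₀ w) θ α k = ∑ i : Ix L, cf w i * lam (bas H₀ i) θ α k := by
  have e : ∀ u, Hw H₀ w u = ∑ i : Ix L, cf w i * bas H₀ i u := fun u => congrFun (Hw_bas H₀ w) u
  simp only [lam, gph, bx, dt, a4_deriv h0 w, e]
  simp only [Finset.sum_mul, Finset.mul_sum, ← Finset.sum_sub_distrib, ← Finset.sum_add_distrib]
  refine Finset.sum_congr rfl fun i _ => ?_
  ring

private lemma a4_ee_sum {J : ℕ} (f : Fin J → ℝ) : ee (∑ t, f t) = ∏ t, ee (f t) := by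
  unfold ee
  rw [← Complex.exp_sum]
  congr 1
  push_cast
  rw [Finset.mul_sum, Finset.sum_mul]

private lemma a4_dt_sum {J : ℕ} (k : Fin J → ℤ × ℤ) (x : ℝ × ℝ) : dt (∑ t, k t) x = ∑ t, dt (k t) x := by
  simp only [dt, Prod.fst_sum, Prod.snd_sum, Int.cast_sum, Finset.sum_mul, Finset.sum_add_distrib]

/-- the coefficient, multiplied by the unimodular factor of the centre `bx h (θ + α)` -/
private noncomputable def Gm {J : ℕ} (h : ℝ → ℝ) (A : Fin J → Finset (ℤ × ℤ)) (b : Fin J → ℤ × ℤ → ℂ) (θ α : ℝ)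
    (m : ℤ × ℤ) (R : ℝ) : ℂ :=
  ∑ k ∈ (Fintype.piFinset A).filter (fun k => ∑ t, k t = m), (∏ t, b t (k t)) * ee (-(R * ∑ t, lam h θ α (k t)))

private lemma Gm_co {J : ℕ} (h : ℝ → ℝ) (A : Fin J → Finset (ℤ × ℤ)) (b : Fin J → ℤ × ℤ → ℂ) (θ α : ℝ)
    (m : ℤ × ℤ) (R : ℝ) : Gm h A b θ α m R = co h A b R α m * ee (R * dt m (bx h (θ + α))) := by
  unfold Gm co
  rw [Finset.sum_mul]
  refine Finset.sum_congr rfl fun k hk => ?_
  have hm : ∑ t, k t = m := (Finset.mem_filter.1 hk).2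
  rw [Finset.prod_mul_distrib, mul_assoc]
  congr 1
  rw [← a4_ee_sum, ← ee_add, ← hm, a4_dt_sum]
  congr 1
  simp only [lam, Finset.sum_sub_distrib, Finset.sum_neg_distrib, ← Finset.mul_sum]
  ring

private lemma Gm_norm {J : ℕ} (h : ℝ → ℝ) (A : Fin J → Finset (ℤ × ℤ)) (b : Fin J → ℤ × ℤ → ℂ) (θ α : ℝ)
    (m : ℤ × ℤ) (R : ℝ) : ‖Gm h A b θ α m R‖ = ‖co h A b R α m‖ := by
  rw [Gm_co, norm_mul, ee_norm, mul_one]

private lemma Gm_hasDerivAt {J : ℕ} (h : ℝ → ℝ) (A : Fin J → Finset (ℤ × ℤ)) (b : Fin J → ℤ × ℤ → ℂ) (θ α : ℝ)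
    (m : ℤ × ℤ) (R : ℝ) :
    HasDerivAt (fun R => Gm h A b θ α m R)
      (∑ k ∈ (Fintype.piFinset A).filter (fun k => ∑ t, k t = m), (∏ t, b t (k t)) *
        (((-(∑ t, lam h θ α (k t)) : ℝ) : ℂ) * (2 * π * Complex.I * ee (-(R * ∑ t, lam h θ α (k t)))))) R := by
  unfold Gm
  apply HasDerivAt.fun_sum
  intro k _
  apply HasDerivAt.const_mul
  have h1 : HasDerivAt (fun R : ℝ => -(R * ∑ t, lam h θ α (k t))) (-(∑ t, lam h θ α (k t))) R := by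
    refine ((hasDerivAt_id R).mul_const (∑ t, lam h θ α (k t))).fun_neg.congr_deriv ?_
    ring
  have h2 := (ee_hasDerivAt (-(R * ∑ t, lam h θ α (k t)))).scomp R h1
  refine h2.congr_deriv ?_
  rw [Complex.real_smul]

private lemma Gm_cont {J : ℕ} (h : ℝ → ℝ) (A : Fin J → Finset (ℤ × ℤ)) (b : Fin J → ℤ × ℤ → ℂ) (θ α : ℝ)
    (m : ℤ × ℤ) : Continuous (fun R => Gm h A b θ α m R) :=
  continuous_iff_continuousAt.2 fun R => (Gm_hasDerivAt h A b θ α m R).continuousAt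

private lemma co_cont {J : ℕ} (h : ℝ → ℝ) (A : Fin J → Finset (ℤ × ℤ)) (b : Fin J → ℤ × ℤ → ℂ) (α : ℝ)
    (m : ℤ × ℤ) : Continuous (fun R => ‖co h A b R α m‖ ^ 2) := by
  have e : (fun R => ‖co h A b R α m‖ ^ 2) = fun R => ‖Gm h A b 0 α m R‖ ^ 2 := by
    funext R
    rw [Gm_norm]
  rw [e]
  exact (Gm_cont h A b 0 α m).norm.pow 2

private lemma wt_prod {L J : ℕ} (H₀ : ℝ → ℝ) (b : ℤ × ℤ → ℂ) (θ α q : ℝ) (t : Fin J) (i : Ix L) (k : Fin J → ℤ × ℤ) :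
    ∏ t', wt H₀ b θ α q t i t' (k t') = (∏ t', b (k t')) * ((lam (bas H₀ i) θ α (k t) / q : ℝ) : ℂ) := by
  have e : ∀ t', wt H₀ b θ α q t i t' (k t') =
      b (k t') * (if t' = t then ((lam (bas H₀ i) θ α (k t) / q : ℝ) : ℂ) else 1) := by
    intro t'
    unfold wt
    by_cases ht : t' = t
    · subst ht
      rw [Function.update_self, if_pos rfl]
    · rw [Function.update_of_ne ht, if_neg ht, mul_one]
  rw [Finset.prod_congr rfl fun t' _ => e t', Finset.prod_mul_distrib, Finset.prod_ite_eq']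
  simp

/-- the derivative is a combination of the coefficients with the modified weights -/
private lemma Gm_deriv_eq {L J : ℕ} {H₀ : ℝ → ℝ} (h0 : ContDiff ℝ 2 H₀) (w : (Fin L → ℝ) × (Fin L → ℝ))
    (A : Fin J → Finset (ℤ × ℤ)) (b : ℤ × ℤ → ℂ) (θ α : ℝ) {q : ℝ} (hq : 0 < q) (m : ℤ × ℤ) (R : ℝ) :
    (∑ k ∈ (Fintype.piFinset A).filter (fun k => ∑ t, k t = m), (∏ t, b (k t)) *
        (((-(∑ t, lam (Hw H₀ w) θ α (k t)) : ℝ) : ℂ) * (2 * π * Complex.I * ee (-(R * ∑ t, lam (Hw H₀ w) θ α (k t)))))) =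
      -(2 * π * Complex.I * q) * ∑ t : Fin J, ∑ i : Ix L, (cf w i : ℂ) * Gm (Hw H₀ w) A (wt H₀ b θ α q t i) θ α m R := by
  have hq' : (q : ℂ) ≠ 0 := by exact_mod_cast hq.ne'
  have e1 : ∀ k : Fin J → ℤ × ℤ, (∏ t, b (k t)) *
        (((-(∑ t, lam (Hw H₀ w) θ α (k t)) : ℝ) : ℂ) * (2 * π * Complex.I * ee (-(R * ∑ t, lam (Hw H₀ w) θ α (k t))))) =
      ∑ t : Fin J, ∑ i : Ix L, -(2 * π * Complex.I * q) * ((cf w i : ℂ) *
        ((∏ t', wt H₀ b θ α q t i t' (k t')) * ee (-(R * ∑ t, lam (Hw H₀ w) θ α (k t))))) := by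
    intro k
    generalize hE : ee (-(R * ∑ t, lam (Hw H₀ w) θ α (k t))) = E
    have e2 : ((-(∑ t, lam (Hw H₀ w) θ α (k t)) : ℝ) : ℂ) =
        -∑ t : Fin J, ∑ i : Ix L, (cf w i : ℂ) * ((lam (bas H₀ i) θ α (k t) : ℝ) : ℂ) := by
      rw [Finset.sum_congr rfl fun t _ => a4_lam h0 w θ α (k t)]
      push_cast
      rfl
    rw [e2]
    have e3 : ∀ (t : Fin J) (i : Ix L), -(2 * π * Complex.I * q) * ((cf w i : ℂ) *
        ((∏ t', wt H₀ b θ α q t i t' (k t')) * E)) =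
        -((∏ t, b (k t)) * (2 * π * Complex.I * E) * ((cf w i : ℂ) * ((lam (bas H₀ i) θ α (k t) : ℝ) : ℂ))) := by
      intro t i
      rw [wt_prod]
      push_cast
      field_simp
    simp only [e3]
    simp only [Finset.sum_neg_distrib, ← Finset.mul_sum]
    ring
  rw [Finset.sum_congr rfl fun k _ => e1 k, Finset.sum_comm, Finset.mul_sum]
  refine Finset.sum_congr rfl fun t _ => ?_
  rw [Finset.sum_comm, Finset.mul_sum]
  refine Finset.sum_congr rfl fun i _ => ?_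
  unfold Gm
  rw [Finset.mul_sum, Finset.mul_sum]

private lemma Gm_deriv_sq {L J : ℕ} {H₀ : ℝ → ℝ} (h0 : ContDiff ℝ 2 H₀) (w : (Fin L → ℝ) × (Fin L → ℝ)) {B : ℝ}
    (hB : ∀ i : Ix L, |cf w i| ≤ B) (hB0 : 0 ≤ B)
    (A : Fin J → Finset (ℤ × ℤ)) (b : ℤ × ℤ → ℂ) (θ α : ℝ) {q : ℝ} (hq : 0 < q) (m : ℤ × ℤ) (R : ℝ) :
    ‖(∑ k ∈ (Fintype.piFinset A).filter (fun k => ∑ t, k t = m), (∏ t, b (k t)) *
        (((-(∑ t, lam (Hw H₀ w) θ α (k t)) : ℝ) : ℂ) *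
          (2 * π * Complex.I * ee (-(R * ∑ t, lam (Hw H₀ w) θ α (k t))))))‖ ^ 2 ≤
      (2 * π * q * B) ^ 2 * (J * (2 * L + 1)) *
        ∑ t : Fin J, ∑ i : Ix L, ‖co (Hw H₀ w) A (wt H₀ b θ α q t i) R α m‖ ^ 2 := by
  rw [Gm_deriv_eq h0 w A b θ α hq m R]
  have hπ := pi_pos
  have e1 : ‖-(2 * (π : ℂ) * Complex.I * q)‖ = 2 * π * q := by
    rw [norm_neg, norm_mul, norm_mul, norm_mul, Complex.norm_I, Complex.norm_real, Complex.norm_real, Real.norm_eq_abs,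
      Real.norm_eq_abs, abs_of_pos hπ, abs_of_pos hq]
    norm_num
  have h1 : ‖∑ t : Fin J, ∑ i : Ix L, (cf w i : ℂ) * Gm (Hw H₀ w) A (wt H₀ b θ α q t i) θ α m R‖ ≤
      B * ∑ t : Fin J, ∑ i : Ix L, ‖co (Hw H₀ w) A (wt H₀ b θ α q t i) R α m‖ := by
    rw [Finset.mul_sum]
    refine (norm_sum_le _ _).trans (Finset.sum_le_sum fun t _ => ?_)
    rw [Finset.mul_sum]
    refine (norm_sum_le _ _).trans (Finset.sum_le_sum fun i _ => ?_)
    rw [norm_mul, Gm_norm, Complex.norm_real, Real.norm_eq_abs]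
    exact mul_le_mul_of_nonneg_right (hB i) (norm_nonneg _)
  have hcs : (∑ t : Fin J, ∑ i : Ix L, ‖co (Hw H₀ w) A (wt H₀ b θ α q t i) R α m‖) ^ 2 ≤
      (J * (2 * L + 1)) * ∑ t : Fin J, ∑ i : Ix L, ‖co (Hw H₀ w) A (wt H₀ b θ α q t i) R α m‖ ^ 2 := by
    have hcard : ((Finset.univ : Finset (Fin J × Ix L)).card : ℝ) = J * (2 * L + 1) := by
      rw [Finset.card_univ, Fintype.card_prod, Fintype.card_option, Fintype.card_sum, Fintype.card_fin, Fintype.card_fin]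
      push_cast
      ring
    have h := sq_sum_le_card_mul_sum_sq (s := (Finset.univ : Finset (Fin J × Ix L)))
      (f := fun p => ‖co (Hw H₀ w) A (wt H₀ b θ α q p.1 p.2) R α m‖)
    rw [hcard, Fintype.sum_prod_type, Fintype.sum_prod_type] at h
    exact h
  rw [norm_mul, e1]
  have hS0 : 0 ≤ ∑ t : Fin J, ∑ i : Ix L, ‖co (Hw H₀ w) A (wt H₀ b θ α q t i) R α m‖ :=
    Finset.sum_nonneg fun t _ => Finset.sum_nonneg fun i _ => norm_nonneg _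
  calc (2 * π * q * ‖∑ t : Fin J, ∑ i : Ix L, (cf w i : ℂ) * Gm (Hw H₀ w) A (wt H₀ b θ α q t i) θ α m R‖) ^ 2
      ≤ (2 * π * q * (B * ∑ t : Fin J, ∑ i : Ix L, ‖co (Hw H₀ w) A (wt H₀ b θ α q t i) R α m‖)) ^ 2 := by
        gcongr
    _ = (2 * π * q * B) ^ 2 * (∑ t : Fin J, ∑ i : Ix L, ‖co (Hw H₀ w) A (wt H₀ b θ α q t i) R α m‖) ^ 2 := by ring
    _ ≤ (2 * π * q * B) ^ 2 * ((J * (2 * L + 1)) *
        ∑ t : Fin J, ∑ i : Ix L, ‖co (Hw H₀ w) A (wt H₀ b θ α q t i) R α m‖ ^ 2) := by gcongr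
    _ = _ := by ring

/-- the inequality for one frequency -/
private lemma Gm_sob {L J Jm : ℕ} (hJm : J ≤ Jm) {H₀ : ℝ → ℝ} (h0 : ContDiff ℝ 2 H₀) (w : (Fin L → ℝ) × (Fin L → ℝ)) {B C0 : ℝ}
    (hB : ∀ i : Ix L, |cf w i| ≤ B) (hB0 : 0 ≤ B) (hC0 : 0 < C0)
    (A : Fin J → Finset (ℤ × ℤ)) (b : ℤ × ℤ → ℂ) (θ α κ R₀ : ℝ) (hκ : 1 ≤ κ) (hR₀ : 1 ≤ R₀) (m : ℤ × ℤ) {R : ℝ}
    (hR : R ∈ Icc (R₀ / 2) (4 * R₀)) :
    ‖co (Hw H₀ w) A (fun _ => b) R α m‖ ^ 2 ≤ (2 + (2 * π * C0 * B) ^ 2 * (Jm * (2 * L + 1))) * κ *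
      ∫ R in Icc (R₀ / 2) (4 * R₀), (‖co (Hw H₀ w) A (fun _ => b) R α m‖ ^ 2 +
        ∑ t : Fin J, ∑ i : Ix L, ‖co (Hw H₀ w) A (wt H₀ b θ α (C0 * κ) t i) R α m‖ ^ 2) := by
  have hκ0 : 0 < κ := lt_of_lt_of_le one_pos hκ
  have hq : 0 < C0 * κ := mul_pos hC0 hκ0
  set D : ℝ → ℂ := fun R => ∑ k ∈ (Fintype.piFinset A).filter (fun k => ∑ t, k t = m), (∏ t, b (k t)) *
        (((-(∑ t, lam (Hw H₀ w) θ α (k t)) : ℝ) : ℂ) *
          (2 * π * Complex.I * ee (-(R * ∑ t, lam (Hw H₀ w) θ α (k t))))) with hD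
  set G : ℝ → ℂ := fun R => Gm (Hw H₀ w) A (fun _ => b) θ α m R with hG
  have hGD : ∀ x, HasDerivAt G (D x) x := fun x => Gm_hasDerivAt (Hw H₀ w) A (fun _ => b) θ α m x
  have hDc : Continuous D := by
    rw [hD]
    apply continuous_finsetSum
    intro k _
    have := ee_cont
    fun_prop
  have hGc : Continuous G := Gm_cont _ _ _ _ _ _
  have hF : ∀ x, HasDerivAt (fun x => G x * G x) (2 * G x * D x) x := by
    intro x
    refine ((hGD x).mul (hGD x)).congr_deriv ?_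
    ring
  have hF' : Continuous (fun x => 2 * G x * D x) := by fun_prop
  have he : R₀ / 2 + 7 / 2 * R₀ = 4 * R₀ := by ring
  have hx : R ∈ Icc (R₀ / 2) (R₀ / 2 + 7 / 2 * R₀) := by rw [he]; exact hR
  have hs := sob hF hF' (a := R₀ / 2) (ℓ := 7 / 2 * R₀) (by linarith) hx
  rw [he] at hs
  set V : ℝ → ℝ := fun R => ∑ t : Fin J, ∑ i : Ix L, ‖co (Hw H₀ w) A (wt H₀ b θ α (C0 * κ) t i) R α m‖ ^ 2 with hV
  have hV0 : ∀ R, 0 ≤ V R := fun R => Finset.sum_nonneg fun t _ => Finset.sum_nonneg fun i _ => by positivity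
  have hVc : Continuous V := by
    rw [hV]
    exact continuous_finsetSum _ fun t _ => continuous_finsetSum _ fun i _ => co_cont _ _ _ _ _
  have hU : ∀ R, ‖G R‖ = ‖co (Hw H₀ w) A (fun _ => b) R α m‖ := fun R => Gm_norm _ _ _ _ _ _ _
  have hUc : Continuous (fun R => ‖G R‖ ^ 2) := hGc.norm.pow 2
  have hDV : ∀ R, ‖D R‖ ^ 2 ≤ (2 * π * (C0 * κ) * B) ^ 2 * (J * (2 * L + 1)) * V R := fun R =>
    Gm_deriv_sq h0 w hB hB0 A b θ α hq m R
  have hπ := pi_pos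
  have hpt : ∀ R, ‖2 * G R * D R‖ ≤ κ * ‖G R‖ ^ 2 + κ * ((2 * π * C0 * B) ^ 2 * (Jm * (2 * L + 1))) * V R := by
    intro R
    rw [norm_mul, norm_mul]
    have h2 : ‖(2 : ℂ)‖ = 2 := by norm_num
    rw [h2]
    have h3 : 2 * ‖G R‖ * ‖D R‖ ≤ κ * ‖G R‖ ^ 2 + ‖D R‖ ^ 2 / κ := by
      have h4 : 0 ≤ (κ * ‖G R‖ - ‖D R‖) ^ 2 / κ := by positivity
      have h5 : (κ * ‖G R‖ - ‖D R‖) ^ 2 / κ = κ * ‖G R‖ ^ 2 + ‖D R‖ ^ 2 / κ - 2 * ‖G R‖ * ‖D R‖ := by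
        field_simp
        ring
      linarith
    have h6 : ‖D R‖ ^ 2 / κ ≤ κ * ((2 * π * C0 * B) ^ 2 * (Jm * (2 * L + 1))) * V R := by
      rw [div_le_iff₀ hκ0]
      refine (hDV R).trans ?_
      have hJ' : (J : ℝ) ≤ Jm := by exact_mod_cast hJm
      have h7 : (2 * π * (C0 * κ) * B) ^ 2 * (J * (2 * L + 1)) * V R ≤
          (2 * π * (C0 * κ) * B) ^ 2 * (Jm * (2 * L + 1)) * V R := by
        have := hV0 R
        gcongr
      refine h7.trans (le_of_eq ?_)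
      ring
    linarith
  have hint1 : IntegrableOn (fun y => ‖G y * G y‖) (Icc (R₀ / 2) (4 * R₀)) :=
    (hGc.mul hGc).norm.continuousOn.integrableOn_compact isCompact_Icc
  have hintU : IntegrableOn (fun y => ‖G y‖ ^ 2) (Icc (R₀ / 2) (4 * R₀)) :=
    hUc.continuousOn.integrableOn_compact isCompact_Icc
  have hintV : IntegrableOn V (Icc (R₀ / 2) (4 * R₀)) := hVc.continuousOn.integrableOn_compact isCompact_Icc
  set IU := ∫ y in Icc (R₀ / 2) (4 * R₀), ‖G y‖ ^ 2 with hIU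
  set IV := ∫ y in Icc (R₀ / 2) (4 * R₀), V y with hIV
  have hIU0 : 0 ≤ IU := setIntegral_nonneg measurableSet_Icc fun x _ => by positivity
  have hIV0 : 0 ≤ IV := setIntegral_nonneg measurableSet_Icc fun x _ => hV0 x
  have h1 : (∫ y in Icc (R₀ / 2) (4 * R₀), ‖G y * G y‖) = IU := by
    rw [hIU]
    refine integral_congr_ae (ae_of_all _ fun y => ?_)
    show ‖G y * G y‖ = ‖G y‖ ^ 2
    rw [norm_mul]
    ring
  have h2 : (∫ y in Icc (R₀ / 2) (4 * R₀), ‖2 * G y * D y‖) ≤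
      κ * IU + κ * ((2 * π * C0 * B) ^ 2 * (Jm * (2 * L + 1))) * IV := by
    have h3 : (∫ y in Icc (R₀ / 2) (4 * R₀), ‖2 * G y * D y‖) ≤
        ∫ y in Icc (R₀ / 2) (4 * R₀), (κ * ‖G y‖ ^ 2 + κ * ((2 * π * C0 * B) ^ 2 * (Jm * (2 * L + 1))) * V y) := by
      apply setIntegral_mono_on
      · exact hF'.norm.continuousOn.integrableOn_compact isCompact_Icc
      · exact (hintU.const_mul _).add (hintV.const_mul _)
      · exact measurableSet_Icc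
      · exact fun y _ => hpt y
    refine h3.trans (le_of_eq ?_)
    rw [integral_add (hintU.const_mul _) (hintV.const_mul _), integral_const_mul, integral_const_mul]
  have h3 : 1 / (7 / 2 * R₀) ≤ 1 := by
    rw [div_le_one (by linarith)]
    linarith
  have h4 : (∫ R in Icc (R₀ / 2) (4 * R₀), (‖co (Hw H₀ w) A (fun _ => b) R α m‖ ^ 2 +
        ∑ t : Fin J, ∑ i : Ix L, ‖co (Hw H₀ w) A (wt H₀ b θ α (C0 * κ) t i) R α m‖ ^ 2)) = IU + IV := by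
    rw [hIU, hIV, ← integral_add hintU hintV]
    refine integral_congr_ae (ae_of_all _ fun y => ?_)
    show _ = ‖G y‖ ^ 2 + V y
    rw [hU]
  rw [h4]
  have h5 : ‖co (Hw H₀ w) A (fun _ => b) R α m‖ ^ 2 = ‖G R * G R‖ := by
    rw [norm_mul, hU]
    ring
  rw [h5]
  rw [h1] at hs
  have hK0 : 0 ≤ (2 * π * C0 * B) ^ 2 * (Jm * (2 * L + 1)) := by positivity
  clear_value IU IV
  generalize (2 * π * C0 * B) ^ 2 * (Jm * (2 * L + 1)) = K at *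
  calc ‖G R * G R‖ ≤ 1 / (7 / 2 * R₀) * IU + (κ * IU + κ * K * IV) := hs.trans (by linarith)
    _ ≤ 1 * IU + (κ * IU + κ * K * IV) := by gcongr
    _ ≤ κ * IU + (κ * IU + κ * K * IV) := by gcongr
    _ ≤ (2 + K) * κ * (IU + IV) := by
        have e1 : 0 ≤ K * κ * IU := mul_nonneg (mul_nonneg hK0 hκ0.le) hIU0
        have e2 : 0 ≤ κ * IV := mul_nonneg hκ0.le hIV0
        have e3 : (2 + K) * κ * (IU + IV) = 2 * (κ * IU) + K * κ * IU + 2 * (κ * IV) + κ * K * IV := by ring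
        rw [e3]
        linarith

theorem Yq_sob_u (L : ℕ) (Bd : ℝ) (Jm : ℕ) {C0 : ℝ} (hC0 : 0 < C0) :
    ∃ C : ℝ, 0 < C ∧ ∀ H₀ : ℝ → ℝ, ContDiff ℝ 2 H₀ → ∀ (J : ℕ), J ≤ Jm → ∀ (A : Fin J → Finset (ℤ × ℤ)) (b : ℤ × ℤ → ℂ)
      (θ α κ R₀ : ℝ), 1 ≤ κ → 1 ≤ R₀ → ∀ w : (Fin L → ℝ) × (Fin L → ℝ), ‖w‖ ≤ Bd → ∀ R ∈ Icc (R₀ / 2) (4 * R₀),
        Yq (Hw H₀ w) A (fun _ => b) R α ≤ C * κ * Ys H₀ A b θ (C0 * κ) R₀ α w := by
  refine ⟨2 + (2 * π * C0 * max 1 Bd) ^ 2 * (Jm * (2 * L + 1)), by positivity, ?_⟩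
  intro H₀ h0 J hJm A b θ α κ R₀ hκ hR₀ w hw R hR
  have hB : ∀ i : Ix L, |cf w i| ≤ max 1 Bd := fun i => (cf_abs_le w i).trans (max_le_max le_rfl hw)
  have hB0 : 0 ≤ max 1 Bd := zero_le_one.trans (le_max_left _ _)
  set C := 2 + (2 * π * C0 * max 1 Bd) ^ 2 * (Jm * (2 * L + 1)) with hC
  have h1 : Yq (Hw H₀ w) A (fun _ => b) R α ≤ ∑ m ∈ fq A, C * κ *
      ∫ R in Icc (R₀ / 2) (4 * R₀), (‖co (Hw H₀ w) A (fun _ => b) R α m‖ ^ 2 +
        ∑ t : Fin J, ∑ i : Ix L, ‖co (Hw H₀ w) A (wt H₀ b θ α (C0 * κ) t i) R α m‖ ^ 2) :=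
    Finset.sum_le_sum fun m _ => Gm_sob hJm h0 w hB hB0 hC0 A b θ α κ R₀ hκ hR₀ m hR
  refine h1.trans (le_of_eq ?_)
  rw [← Finset.mul_sum]
  congr 1
  unfold Ys
  rw [← integral_finsetSum]
  · refine integral_congr_ae (ae_of_all _ fun y => ?_)
    show (∑ m ∈ fq A, (_ + _)) = _
    rw [Finset.sum_add_distrib]
    unfold Yq
    congr 1
    rw [Finset.sum_comm]
    refine Finset.sum_congr rfl fun t _ => ?_
    rw [Finset.sum_comm]
  · intro m _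
    refine ContinuousOn.integrableOn_compact isCompact_Icc (Continuous.continuousOn ?_)
    refine (co_cont _ _ _ _ _).add ?_
    exact continuous_finsetSum _ fun t _ => continuous_finsetSum _ fun i _ => co_cont _ _ _ _ _

end Pool.Agent.Helper85.AO
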